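import Pool.Agent.W221.NS.Stm3

set_option autoImplicit false
set_option linter.unusedVariables false

/-! MF-OSC: scaling to viscosity one for local solutions. -/

open MeasureTheory Set
open scoped ContDiff

namespace Pool.Agent.W22.MF

open H459R3.NS W221.NS

lemma pd_const_mul (c : ℝ) (j : Fin 3) (f : V → ℝ) (x : V) :
    pd j (fun y => c * f y) x = c * pd j f x := by
  unfold pd
  have h : (fun y => c * f y) = c • f := rfl
  rw [h, fderiv_const_smul_field]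
  rfl

lemma deriv_scale (ν : ℝ) (f : ℝ → ℝ) (t : ℝ) :
    deriv (fun s => ν⁻¹ * f (s / ν)) t = ν⁻¹ * (ν⁻¹ * deriv f (t / ν)) := by
  rw [deriv_const_mul_field]
  have h : (fun s : ℝ => f (s / ν)) = fun s : ℝ => f (ν⁻¹ * s) := by
    funext s
    rw [div_eq_inv_mul]
  rw [h, deriv_comp_mul_left, smul_eq_mul, div_eq_inv_mul]

lemma nsq_smul (c : ℝ) (v : V → V) (x : V) : nsq (fun y => c • v y) x = c ^ 2 * nsq v x := by
  unfold nsq
  rw [Finset.mul_sum]
  refine Finset.sum_congr rfl fun i _ => ?_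
  show (c * v x i) ^ 2 = c ^ 2 * v x i ^ 2
  rw [mul_pow]

theorem t_OSC : S_OSC := by
  intro ν T E Ω u p hν h
  have hdiv : ∀ t, t ∈ Ioo 0 (ν * T) → t / ν ∈ Ioo 0 T := by
    intro t ht
    refine ⟨div_pos ht.1 hν, ?_⟩
    rw [div_lt_iff₀ hν, mul_comm T ν]
    exact ht.2
  have hmaps : MapsTo (fun z : ℝ × V => (z.1 / ν, z.2)) (Ioo 0 (ν * T) ×ˢ Ω)
      (Ioo 0 T ×ˢ Ω) := by
    rintro ⟨t, x⟩ ⟨ht, hx⟩
    exact ⟨hdiv t ht, hx⟩
  have hlin : ContDiff ℝ ∞ (fun z : ℝ × V => (z.1 / ν, z.2)) := by fun_prop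
  refine ⟨h.openO, ?_, ?_, ?_, ?_, ?_, ?_⟩
  · have h1 := (h.smooth_u.comp hlin.contDiffOn hmaps).const_smul ν⁻¹
    exact h1
  · have h1 := (h.smooth_p.comp hlin.contDiffOn hmaps).const_smul ((ν ^ 2)⁻¹)
    exact h1
  · intro t ht x hx
    have h1 := h.divfree _ (hdiv t ht) x hx
    have h2 : ∀ i, pd i (fun y => (ν⁻¹ • u (t / ν) y) i) x =
        ν⁻¹ * pd i (fun y => u (t / ν) y i) x := fun i =>
      pd_const_mul ν⁻¹ i (fun y => u (t / ν) y i) x
    rw [Finset.sum_congr rfl fun i _ => h2 i, ← Finset.mul_sum, h1, mul_zero]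
  · intro t ht x hx i
    have h1 := h.momentum _ (hdiv t ht) x hx i
    have e1 : deriv (fun s => (ν⁻¹ • u (s / ν) x) i) t =
        ν⁻¹ * (ν⁻¹ * deriv (fun s => u s x i) (t / ν)) :=
      deriv_scale ν (fun s => u s x i) t
    have e2 : ∀ j, pd j (fun y => (ν⁻¹ • u (t / ν) y) i) =
        fun x => ν⁻¹ * pd j (fun y => u (t / ν) y i) x := by
      intro j
      funext x
      exact pd_const_mul ν⁻¹ j (fun y => u (t / ν) y i) x
    have e3 : ∀ j, pd j (pd j (fun y => (ν⁻¹ • u (t / ν) y) i)) x =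
        ν⁻¹ * pd j (pd j (fun y => u (t / ν) y i)) x := by
      intro j
      rw [e2 j]
      exact pd_const_mul ν⁻¹ j _ x
    have e4 : pd i (fun x => (ν ^ 2)⁻¹ * p (t / ν) x) x = (ν ^ 2)⁻¹ * pd i (p (t / ν)) x :=
      pd_const_mul _ i _ x
    rw [e1, e4]
    simp_rw [e3, e2, Pi.smul_apply, smul_eq_mul]
    rw [← Finset.mul_sum, one_mul]
    have e5 : ∑ j, ν⁻¹ * u (t / ν) x j * (ν⁻¹ * pd j (fun y => u (t / ν) y i) x) =
        ν⁻¹ * (ν⁻¹ * ∑ j, u (t / ν) x j * pd j (fun y => u (t / ν) y i) x) := by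
      rw [Finset.mul_sum, Finset.mul_sum]
      refine Finset.sum_congr rfl fun j _ => ?_
      ring
    rw [e5]
    have e6 : (ν ^ 2)⁻¹ = ν⁻¹ * ν⁻¹ := by
      rw [sq, mul_inv]
    have e7 : ν⁻¹ * ν⁻¹ * ν = ν⁻¹ := by
      rw [mul_assoc, inv_mul_cancel₀ hν.ne', mul_one]
    rw [e6]
    have h2 := congrArg (fun z => ν⁻¹ * ν⁻¹ * z) h1
    simp only [mul_add, mul_sub] at h2
    rw [← mul_assoc, ← mul_assoc, h2, ← mul_assoc, e7]
  · intro t ht
    have h1 : IntegrableOn (fun x => ν⁻¹ ^ 2 * nsq (u (t / ν)) x) Ω :=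
      (h.en_int _ (hdiv t ht)).const_mul _
    refine h1.congr (Filter.Eventually.of_forall fun x => ?_)
    exact (nsq_smul _ _ _).symm
  · intro t ht
    have h1 : ∫ x in Ω, nsq (fun x => ν⁻¹ • u (t / ν) x) x =
        ν⁻¹ ^ 2 * ∫ x in Ω, nsq (u (t / ν)) x := by
      rw [← integral_const_mul]
      refine integral_congr_ae (Filter.Eventually.of_forall fun x => ?_)
      exact nsq_smul _ _ _
    have h2 := mul_le_mul_of_nonneg_left (h.en _ (hdiv t ht)) (sq_nonneg ν⁻¹)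
    have h3 : (E / ν) ^ 2 = ν⁻¹ ^ 2 * E ^ 2 := by
      rw [div_eq_mul_inv, mul_pow]; ring
    rw [h3]
    exact h1.le.trans h2

end Pool.Agent.W22.MF
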